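import Pool.Agent.N856.JT.Gold

/-!
# Goldfeld's conjecture: simultaneous analytic rank zero for a positive proportion of all the twists

`E^D : y² = x³ - 12987 D² x - 263466 D³` are the quadratic twists of the modular curve `E = X_0(15)`,
which is semistable and has no complex multiplication. Let `𝒟` be the class of the squarefree
`c ≡ 1 mod 4` such that `3` and `5` split in `ℚ(√c)`, or `c = 1`. For `c ∈ 𝒟` and a squarefree integer
`D` let `tw c D = c D / gcd(c, D)²` be the squarefree part of `c D`, so that `E^(tw c D)` is the twist by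
`D` of the curve `E^c`.

Let `T ⊆ 𝒟` be any finite set. For at least the proportion `35/576 · η ^ |T|` of ALL the squarefree
integers `D` (of any sign, ordered by `|D|`), `η = (1 - 1/2) (1 - 1/4) (1 - 1/8) ⋯ = 0.2888…`, all the
curves `E^(tw c D)`, `c ∈ T`, have analytic rank `0`: the `L`-functions of the twists by `D` of any
number of different curves `E^c` do not vanish simultaneously at the central point for a positive
proportion of the `D`.

More precisely, let `n` run over the class `𝒩` of the squarefree `n ≡ 3 mod 4` such that `3` is not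
inert and `5` is not split in `ℚ(√-n)` (the negative of these are `35/576` of all the squarefree integers).
For every `V ⊆ T` the set of the `n` such that `E^(tw c (-n))(ℚ)` is finite with `Ш[2] = 0` exactly for the
`c ∈ V`, has natural density `η ^ |V| (1 - η) ^ (|T| - |V|)` in `𝒩`, and for these `n` the analytic rank of
`E^(tw c (-n))` is `0` for all `c ∈ V`. So these conditions for the different `c` are independent.

New is the joint law for the natural density (`Pool.Agent.N856.JL.All`, and for the `n` prime to the `c`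
the parts of helpers 588, 763, 789, 814 and 856, after projects GB of helper916 and QJ of helper426) with
its extension to the multiples of `3` and `5` in `Pool.Agent.N856.JT.Cls`. The criterion for one curve is
the theorem of helpers 969, 875 and others in `MP_696deb_nt/TwistsX15Neg`.
-/

set_option autoImplicit false

open Filter Topology

namespace Pool.Agent.Results.MP_03e5d0_nt.SimultaneousNaturalDensity

/-- coefficients of the twist `E^D : y² = x³ + A D x + B D` of `E = X_0(15)` -/
def A (D : ℤ) : ℤ := -12987 * D ^ 2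

/-- coefficients of the twist `E^D : y² = x³ + A D x + B D` of `E = X_0(15)` -/
def B (D : ℤ) : ℤ := -263466 * D ^ 3

/-- the curve `E^D` over `ℚ` -/
def E (D : ℤ) : WeierstrassCurve ℚ :=
  { a₁ := 0, a₂ := 0, a₃ := 0, a₄ := (A D : ℚ), a₆ := (B D : ℚ) }

/-- `a_p = p + 1 - #E^D(𝔽_p)`, that is `p` minus the number of affine points modulo `p` -/
noncomputable def ap (D : ℤ) (p : ℕ) : ℤ := (p : ℤ) - Nat.card {z : ZMod p × ZMod p //
  z.2 ^ 2 = z.1 ^ 3 + (A D : ZMod p) * z.1 + (B D : ZMod p)}

open Classical in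
/-- `F` is entire and is, for `Re s > 3/2`, the `L`-function of `E^D` without the Euler factors at the
primes which divide twice the discriminant of the cubic polynomial -/
def IsL (D : ℤ) (F : ℂ → ℂ) : Prop :=
  Differentiable ℂ F ∧ ∀ s : ℂ, (3 : ℝ) / 2 < s.re → HasProd (fun p : ℕ =>
    if p.Prime ∧ ¬ (p : ℤ) ∣ 2 * (-4 * A D ^ 3 - 27 * B D ^ 2) then
      (1 - (ap D p : ℂ) * (p : ℂ) ^ (-s) + (p : ℂ) ^ (1 - 2 * s))⁻¹ else 1) (F s)

/-- the analytic rank of `E^D` is `0` -/
def AnRankZero (D : ℤ) : Prop :=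
  (∃ F : ℂ → ℂ, IsL D F) ∧ ∀ F : ℂ → ℂ, IsL D F → analyticOrderAt F 1 = 0

/-- `E^D(ℚ)` is finite and `Ш(E^D/ℚ)` has no element of order two -/
def RankZeroShaTwo (D : ℤ) : Prop :=
  Finite (E D).toAffine.Point ∧ ∀ x : Pool.Agent.TH841.SH.D.Sha (E D), 2 • x = 0 → x = 0

/-- the squarefree `n ≡ 3 mod 4` such that `3` is not inert and `5` is not split in `ℚ(√-n)` -/
def Twist (n : ℕ) : Prop :=
  Squarefree n ∧ n % 4 = 3 ∧ n % 3 ≠ 1 ∧ (n % 5 = 0 ∨ n % 5 = 2 ∨ n % 5 = 3)

/-- the squarefree `d ≡ 1 mod 4` such that `3` and `5` split in `ℚ(√d)`, and `1` -/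
def Disc (d : ℕ) : Prop := Squarefree d ∧ d % 4 = 1 ∧ d % 3 = 1 ∧ (d % 5 = 1 ∨ d % 5 = 4)

/-- the squarefree part of `c D` for squarefree `c` and `D`; `E^(tw c D)` is the twist by `√c` of
`E^D` -/
def tw (c : ℕ) (D : ℤ) : ℤ := (c : ℤ) * D / ((Int.gcd (c : ℤ) D : ℕ) : ℤ) ^ 2

/-- the limit `(1 - 1/2) (1 - 1/4) (1 - 1/8) ⋯` -/
noncomputable def eta : ℝ := ∏' i : ℕ, (1 - (1 / 2 : ℝ) ^ (i + 1))

open Classical in
/-- the number of the `m ≤ X` with the property `P` -/
noncomputable def count (P : ℕ → Prop) (X : ℕ) : ℕ := ((Finset.Icc 1 X).filter fun m => P m).card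

/-- among the numbers with the property `P`, those with the property `Q` have natural density `δ` -/
def HasDensity (P Q : ℕ → Prop) (δ : ℝ) : Prop :=
  Tendsto (fun X : ℕ => (count (fun m => P m ∧ Q m) X : ℝ) / (count P X : ℝ)) atTop (𝓝 δ)

open Classical in
/-- the number of the squarefree integers `D` of any sign with `|D| < X` and the property `P` -/
noncomputable def countZ (P : ℤ → Prop) (X : ℕ) : ℕ :=
  ((Finset.Ioo (-(X : ℤ)) X).filter fun D => Squarefree D ∧ P D).card

/-- **Simultaneous analytic rank zero for a positive proportion of all the twists.** -/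
theorem result {T : Finset ℕ} (hT : ∀ c ∈ T, Disc c) :
    (∀ V ⊆ T, HasDensity Twist (fun n => (∀ c ∈ V, AnRankZero (tw c (-(n : ℤ)))) ∧
      ∀ c ∈ T, (RankZeroShaTwo (tw c (-(n : ℤ))) ↔ c ∈ V))
      (eta ^ V.card * (1 - eta) ^ (T.card - V.card))) ∧
    ∀ ε : ℝ, 0 < ε → ∀ᶠ X : ℕ in atTop,
      (35 / 576 * eta ^ T.card - ε) * (countZ (fun _ => True) X : ℝ) ≤
        (countZ (fun D => ∀ c ∈ T, AnRankZero (tw c D)) X : ℝ) :=
  Pool.Agent.N856.JT.Gold.main hT

end Pool.Agent.Results.MP_03e5d0_nt.SimultaneousNaturalDensity
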