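import Pool.Agent.N855.GF.TwL

/-!
# Analytic rank zero for the quadratic twists of the elliptic curves in the twist class of an
# elliptic curve of conductor `17`

`y² = x³ - 91 x - 330` is the curve `17a2`, `y² = x (x + 1) (x - 16)`; it has no complex
multiplication, full rational `2`-torsion and a rational cyclic isogeny of degree `4`.  Let `C` be its
twist by a squarefree integer `e`, and `C_d` the twist of `C` by a squarefree integer `d` of any sign.
* If `C_d(ℚ)` is finite and `Ш(C_d/ℚ)` has no element of order two, then `L(C_d, 1) ≠ 0`.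
* This is the case for exactly the proportion `c / 2`, `c = ∏_{i ≥ 0} (1 - 2^{-(2i+1)}) = 0.4194...`
  of all squarefree `d`, ordered by `|d|`.
* So the analytic rank is `0` for at least the proportion `0.2097` of all the twists, that is for
  `41.9` percent of the twists with root number `+ 1`.

Joint work of helpers 969, 970, 971, 972, 973, 974, 975, 844, 855, 871, 875, 877, 575, 402, 295, 218,
99, 609, 816, 809, 886, 916, 919, 958: the central values are compared with the class numbers and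
the genus characters of the vectors of two ternary lattices (Gross), the parities with the `F_2`
linear algebra of the `2`-descent.
-/

set_option autoImplicit false

open Filter Topology

namespace Pool.Agent.Results.MP_03e5d0_nt.TwistsX17

/-- `E_m : y² = x³ - 91 m² x - 330 m³`; for `C = E_e` the twist of `C` by `d` is `E_{e d}` -/
def E (m : ℤ) : WeierstrassCurve ℚ :=
  { a₁ := 0, a₂ := 0, a₃ := 0, a₄ := ((-91 * m ^ 2 : ℤ) : ℚ), a₆ := ((-330 * m ^ 3 : ℤ) : ℚ) }

/-- the number of the affine points of `E_m` modulo `p` -/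
noncomputable def pts (m : ℤ) (p : ℕ) : ℕ := Nat.card {q : ZMod p × ZMod p //
  q.2 ^ 2 = q.1 ^ 3 + ((-91 * m ^ 2 : ℤ) : ZMod p) * q.1 + ((-330 * m ^ 3 : ℤ) : ZMod p)}

open Classical in
/-- `F` is entire and is for `Re s > 3/2` the `L`-function of `E_m` without the Euler factors at the
primes dividing `34 m` (`a_p = p - pts m p`) -/
def IsL (m : ℤ) (F : ℂ → ℂ) : Prop :=
  Differentiable ℂ F ∧ ∀ s : ℂ, (3 : ℝ) / 2 < s.re →
    HasProd (fun p : ℕ => if p.Prime ∧ ¬ ((p : ℤ) ∣ 34 * m) then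
      (1 - ((p : ℂ) - (pts m p : ℂ)) * (p : ℂ) ^ (-s) + (p : ℂ) ^ (1 - 2 * s))⁻¹ else 1) (F s)

/-- the analytic rank of `E_m` is `r` -/
def AnRank (m : ℤ) (r : ℕ) : Prop := ∃ F : ℂ → ℂ, IsL m F ∧ analyticOrderAt F 1 = r

/-- `E_m(ℚ)` is finite and `Ш(E_m/ℚ)` has no element of order two -/
def RankZeroShaTwo (m : ℤ) : Prop :=
  Finite (E m).toAffine.Point ∧ ∀ x : Pool.Agent.TH841.SH.D.Sha (E m), 2 • x = 0 → x = 0

/-- the number of the squarefree `d` with `|d| < X` and the property `Q` -/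
noncomputable def count (Q : ℤ → Prop) (X : ℝ) : ℕ :=
  {d : ℤ | Squarefree d ∧ |(d : ℝ)| < X ∧ Q d}.ncard

/-- `S(X)` -/
noncomputable def S (X : ℝ) : ℕ := count (fun _ => True) X

/-- `N_r(C, X)` for `C = E_e` -/
noncomputable def N (e : ℤ) (r : ℕ) (X : ℝ) : ℕ := count (fun d => AnRank (e * d) r) X

/-- the constant `∏ (1 - 2^{-(2i+1)}) = 0.4194...` -/
noncomputable def c : ℝ := ∏' i : ℕ, (1 - (1 / 2 : ℝ) ^ (2 * i + 1))

section proof

open Pool.Agent.N855.GF
open Pool.Agent.N855.GF.Ord (Ng Ng_mono Ng_le)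
open Pool.Agent.N875.P17 (WS)
open Pool.Agent.N875.X15 (Fin2)

theorem fin2_eq (m : ℤ) : RankZeroShaTwo m ↔ Fin2 (WS m) := by
  unfold RankZeroShaTwo Pool.Agent.N875.X15.Fin2
  refine and_congr Iff.rfl (forall_congr' fun x => ?_)
  rw [two_nsmul]
  exact Iff.rfl

theorem anRank {e d : ℤ} (he : Squarefree e) (hd : Squarefree d) (h : RankZeroShaTwo (e * d)) :
    AnRank (e * d) 0 := by
  obtain ⟨F, h1, h2, -⟩ := TwL.exists_L he hd ((fin2_eq (e * d)).1 h)
  exact ⟨F, h1, by rw [h2]; rfl⟩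

theorem lim {e : ℤ} (he : Squarefree e) :
    Tendsto (fun X : ℝ => (count (fun d => RankZeroShaTwo (e * d)) X : ℝ) / (S X : ℝ)) atTop
      (𝓝 (c / 2)) := by
  have h : Tendsto (fun X : ℕ => (Pool.Agent.N919.BS.NS (fun d => Pool.Agent.N919.BS.Rt17 (Tw.tw e d) ∧
      Pool.Agent.N916.MO.G17 (Tw.tw e d)) X : ℝ) / (Pool.Agent.N919.BS.NS (fun _ => True) X : ℝ))
      atTop (𝓝 (Pool.Agent.Y703.CQ.c2 / 2)) := Tw.lim_T he
  refine (Fin17.lim_real h).congr fun X => ?_
  have e1 : count (fun d => RankZeroShaTwo (e * d)) X =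
      Ng (fun d => Pool.Agent.N919.BS.Rt17 (Tw.tw e d) ∧ Pool.Agent.N916.MO.G17 (Tw.tw e d)) X := by
    unfold count Pool.Agent.N855.GF.Ord.Ng
    congr 1
    ext d
    refine and_congr_right fun hd => and_congr_right fun _ => ?_
    exact (fin2_eq _).trans (TwL.fin2_tw he hd)
  rw [e1]
  rfl

end proof

theorem result : ∀ e : ℤ, Squarefree e →
    (∀ d : ℤ, Squarefree d → RankZeroShaTwo (e * d) → AnRank (e * d) 0) ∧
    Tendsto (fun X : ℝ => (count (fun d => RankZeroShaTwo (e * d)) X : ℝ) / (S X : ℝ)) atTop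
      (𝓝 (c / 2)) ∧
    c / 2 ≤ liminf (fun X : ℝ => (N e 0 X : ℝ) / (S X : ℝ)) atTop ∧
    0.2097 < c / 2 ∧ c / 2 < 0.2098 := by
  intro e he
  have hcc : Pool.Agent.Y703.CQ.c2 = c := rfl
  have hc1 : 0.4194 < c := Pool.Agent.Y948.CQ.t_C2.2.2.2.1
  have hc2 : c < 0.4195 := Pool.Agent.Y948.CQ.t_C2.2.2.2.2
  refine ⟨fun d hd h => anRank he hd h, lim he, ?_, by linarith, by linarith⟩
  refine Pool.Agent.N855.GF.Fin17.liminf_ge (lim he) (fun X => ?_) (fun X => ?_)
  · refine div_le_div_of_nonneg_right (Nat.cast_le.2 ?_) (Nat.cast_nonneg _)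
    exact Pool.Agent.N855.GF.Ord.Ng_mono (fun d hd h => anRank he hd h) X
  · apply div_le_one_of_le₀ _ (Nat.cast_nonneg _)
    exact_mod_cast Pool.Agent.N855.GF.Ord.Ng_mono (Q' := fun _ => True) (fun _ _ _ => trivial) X

end Pool.Agent.Results.MP_03e5d0_nt.TwistsX17
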