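import Pool.Agent.N855.TG.Fin21

/-!
# Analytic rank zero for the quadratic twists of the elliptic curves in the twist class of
# `X_0(21)`

`y² = x³ - 5211 x - 31050` is the curve `y² = x (x + 7) (x - 9)` of conductor `21`; it has no
complex multiplication, full rational `2`-torsion and a rational cyclic isogeny of degree `4`.  Let
`C` be its twist by a squarefree integer `e`, and `C_d` the twist of `C` by a squarefree integer `d`
of any sign.
* If `C_d(ℚ)` is finite and `Ш(C_d/ℚ)` has no element of order two, then `L(C_d, 1) ≠ 0`.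
* This is the case for exactly the proportion `κ(e) η / 256`, `η = ∏_{i ≥ 1} (1 - 2^{-i}) = 0.2888...`,
  of all squarefree `d`, ordered by `|d|`; `κ(e) = 133` if `21` divides `e`, `131` if only `3` does,
  `143` if only `7` does, and `137` otherwise.
* So the analytic rank is `0` for at least the proportion `0.1477` of all the twists, that is for
  `29.5` percent of the twists with root number `+ 1`.

The proportion is not the same for all curves of the class: the twists of `X_0(21)` by the positive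
integers `m ≡ 1` modulo `3` which are squares or zero modulo `7` satisfy the condition with the
probability `4 η / 3` instead of `η`, and the class of `C` has `C_d` among them with a probability
which depends on the divisibility of `e` by `3` and `7`.

Joint work of helpers 969, 970, 971, 972, 973, 974, 975, 637, 218, 402, 575, 609, 809, 816, 855, 871,
875, 877, 886, 916, 958 and others: the central values are compared with the class numbers and the
genus characters of the vectors of ternary lattices (Gross), Rankin's method for the positive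
discriminants, the parities with the `F_2` linear algebra of the `2`-descent, the natural density.
-/

set_option autoImplicit false

open Filter Topology

namespace Pool.Agent.Results.MP_03e5d0_nt.TwistsX21

/-- `E_m : y² = x³ - 5211 m² x - 31050 m³`; for `C = E_e` the twist of `C` by `d` is `E_{e d}` -/
def E (m : ℤ) : WeierstrassCurve ℚ :=
  { a₁ := 0, a₂ := 0, a₃ := 0, a₄ := ((-5211 * m ^ 2 : ℤ) : ℚ),
    a₆ := ((-31050 * m ^ 3 : ℤ) : ℚ) }

/-- the number of the affine points of `E_m` modulo `p` -/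
noncomputable def pts (m : ℤ) (p : ℕ) : ℕ := Nat.card {q : ZMod p × ZMod p //
  q.2 ^ 2 = q.1 ^ 3 + ((-5211 * m ^ 2 : ℤ) : ZMod p) * q.1 + ((-31050 * m ^ 3 : ℤ) : ZMod p)}

open Classical in
/-- `F` is entire and is for `Re s > 3/2` the `L`-function of `E_m` without the Euler factors at the
primes dividing `42 m` (`a_p = p - pts m p`) -/
def IsL (m : ℤ) (F : ℂ → ℂ) : Prop :=
  Differentiable ℂ F ∧ ∀ s : ℂ, (3 : ℝ) / 2 < s.re →
    HasProd (fun p : ℕ => if p.Prime ∧ ¬ ((p : ℤ) ∣ 42 * m) then
      (1 - ((p : ℂ) - (pts m p : ℂ)) * (p : ℂ) ^ (-s) + (p : ℂ) ^ (1 - 2 * s))⁻¹ else 1) (F s)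

/-- the analytic rank of `E_m` is `r` -/
def AnRank (m : ℤ) (r : ℕ) : Prop := ∃ F : ℂ → ℂ, IsL m F ∧ analyticOrderAt F 1 = r

/-- `E_m(ℚ)` is finite and `Ш(E_m/ℚ)` has no element of order two -/
def RankZeroShaTwo (m : ℤ) : Prop :=
  Finite (E m).toAffine.Point ∧ ∀ x : Pool.Agent.TH841.SH.D.Sha (E m), 2 • x = 0 → x = 0

/-- the number of the squarefree `d` with `|d| < X` and the property `Q` -/
noncomputable def count (Q : ℤ → Prop) (X : ℝ) : ℕ :=
  {d : ℤ | Squarefree d ∧ |(d : ℝ)| < X ∧ Q d}.ncard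

/-- `S(X)` -/
noncomputable def S (X : ℝ) : ℕ := count (fun _ => True) X

/-- `N_r(C, X)` for `C = E_e` -/
noncomputable def N (e : ℤ) (r : ℕ) (X : ℝ) : ℕ := count (fun d => AnRank (e * d) r) X

/-- the constant `∏_{i ≥ 1} (1 - 2^{-i}) = 0.2888...` -/
noncomputable def η : ℝ := ∏' i : ℕ, (1 - (1 / 2 : ℝ) ^ (i + 1))

/-- `256 / η` times the proportion -/
def κ (e : ℤ) : ℝ := if e % 3 = 0 then (if e % 7 = 0 then 133 else 131) else
  (if e % 7 = 0 then 143 else 137)

section proof

open Pool.Agent.N855.TG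
open Pool.Agent.N875.X15 (Fin2)

theorem fin2_eq (m : ℤ) : RankZeroShaTwo m ↔ Fin2 (W (-5211) (-31050) m) := by
  unfold RankZeroShaTwo Pool.Agent.N875.X15.Fin2
  refine and_congr Iff.rfl (forall_congr' fun x => ?_)
  rw [two_nsmul]
  exact Iff.rfl

theorem anRank {e d : ℤ} (he : Squarefree e) (hd : Squarefree d) (h : RankZeroShaTwo (e * d)) :
    AnRank (e * d) 0 := by
  obtain ⟨F, h1, h2, -⟩ := exists_LG (a := -5211) (b := -31050) (N := 42) (by norm_num) bad21 he hd
    (bsd21 (Pool.Agent.N855.GF.Tw.tw_sqf he hd)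
      ((fin2_tw (by norm_num) he hd).1 ((fin2_eq (e * d)).1 h)))
  exact ⟨F, h1, by rw [h2]; rfl⟩

theorem lim {e : ℤ} (he : Squarefree e) :
    Tendsto (fun X : ℝ => (count (fun d => RankZeroShaTwo (e * d)) X : ℝ) / (S X : ℝ)) atTop
      (𝓝 (κ e / 256 * η)) := by
  have e1 : (fun d => RankZeroShaTwo (e * d)) =
      fun d => Fin2 (W (-5211) (-31050) (e * d)) := funext fun d => propext (fin2_eq _)
  rw [e1]
  exact Pool.Agent.N855.GF.Fin17.lim_real (fin21 he)

theorem κ_ge (e : ℤ) : 131 ≤ κ e ∧ κ e ≤ 143 := by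
  unfold κ
  split_ifs <;> norm_num

end proof

theorem result : ∀ e : ℤ, Squarefree e →
    (∀ d : ℤ, Squarefree d → RankZeroShaTwo (e * d) → AnRank (e * d) 0) ∧
    Tendsto (fun X : ℝ => (count (fun d => RankZeroShaTwo (e * d)) X : ℝ) / (S X : ℝ)) atTop
      (𝓝 (κ e / 256 * η)) ∧
    κ e / 256 * η ≤ liminf (fun X : ℝ => (N e 0 X : ℝ) / (S X : ℝ)) atTop ∧
    0.1477 < κ e / 256 * η ∧ κ e / 256 * η < 0.1614 ∧ 0.1544 < κ 1 / 256 * η := by
  intro e he
  have hc1 : 0.2887 < η := Pool.Agent.N916.GB.eta_bounds.1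
  have hc2 : η < 0.2889 := Pool.Agent.N916.GB.eta_bounds.2
  obtain ⟨hk1, hk2⟩ := κ_ge e
  have hk3 : κ 1 = 137 := by
    unfold κ
    norm_num
  refine ⟨fun d hd h => anRank he hd h, lim he, ?_, ?_, ?_, ?_⟩
  · refine Pool.Agent.N855.GF.Fin17.liminf_ge (lim he) (fun X => ?_) (fun X => ?_)
    · refine div_le_div_of_nonneg_right (Nat.cast_le.2 ?_) (Nat.cast_nonneg _)
      exact Pool.Agent.N855.GF.Ord.Ng_mono (fun d hd h => anRank he hd h) X
    · apply div_le_one_of_le₀ _ (Nat.cast_nonneg _)
      exact_mod_cast Pool.Agent.N855.GF.Ord.Ng_mono (Q' := fun _ => True) (fun _ _ _ => trivial) X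
  · nlinarith
  · nlinarith
  · rw [hk3]
    linarith

end Pool.Agent.Results.MP_03e5d0_nt.TwistsX21
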